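import Pool.Agent.H95.NV.Targets1

/-! Row EXK of board nva_modules (helper20). -/

namespace Pool.Agent.H20.NV

open Pool.Agent.H95.NV NumberField Polynomial

theorem pf_EXK : T_EXK := by
  intro k _ _ _ D hD
  obtain ⟨v⟩ : Nonempty (Pool.Agent.H65.CM4.Pl k) := inferInstance
  have hns : ∀ b : k, b ^ 2 ≠ -(D : k) := by
    intro b hb
    have h1 := congrArg (Pool.Agent.H65.CM4.rv v) hb
    rw [map_pow, map_neg] at h1
    have h2 := hD v
    nlinarith [sq_nonneg (Pool.Agent.H65.CM4.rv v b)]
  have hirr : Irreducible (X ^ 2 - C (-(D : k)) : k[X]) :=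
    X_pow_sub_C_irreducible_of_prime Nat.prime_two hns
  have : Fact (Irreducible (X ^ 2 - C (-(D : k)) : k[X])) := ⟨hirr⟩
  let K := AdjoinRoot (X ^ 2 - C (-(D : k)) : k[X])
  have hdeg : (X ^ 2 - C (-(D : k)) : k[X]).natDegree = 2 := natDegree_X_pow_sub_C
  have hfin : FiniteDimensional k K := (AdjoinRoot.powerBasis hirr.ne_zero).finite
  have hrank : Module.finrank k K = 2 := by
    rw [(AdjoinRoot.powerBasis hirr.ne_zero).finrank, AdjoinRoot.powerBasis_dim, hdeg]
  have : CharZero K := charZero_of_injective_algebraMap (algebraMap k K).injective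
  have : FiniteDimensional ℚ K := FiniteDimensional.trans ℚ k K
  have hNF : NumberField K := { to_charZero := inferInstance, to_finiteDimensional := inferInstance }
  have hQ : Algebra.IsQuadraticExtension k K := { finrank_eq_two' := hrank }
  refine ⟨K, inferInstance, hNF, inferInstance, hQ, AdjoinRoot.root _, ?_⟩
  have h := AdjoinRoot.eval₂_root (X ^ 2 - C (-(D : k)) : k[X])
  rw [eval₂_sub, eval₂_X_pow, eval₂_C, sub_eq_zero] at h
  rw [h, map_neg]
  rfl

end Pool.Agent.H20.NV
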